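import Pool.Agent.W989.RG.Stm

/-! Project RG: a matrix is determined by rows and columns through a maximal invertible minor. -/

set_option autoImplicit false

namespace Pool.Agent.W428.RG

open Finset Pool.Agent.W989.RG

/-- a maximal independent family of rows -/
theorem rows {K : Type} [Field K] {m k r : ℕ} (A : Matrix (Fin m) (Fin k) K) (hr : A.rank = r) :
    ∃ I : Fin r → Fin m, Function.Injective I ∧ LinearIndependent K (fun l => A (I l)) ∧
      ∀ i, A i ∈ Submodule.span K (Set.range fun l => A (I l)) := by
  obtain ⟨κ, a, ha, hsp, hli⟩ := exists_linearIndependent' K (fun i => A i)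
  have : Finite κ := Finite.of_injective a ha
  have : Fintype κ := Fintype.ofFinite κ
  have hcard : Fintype.card κ = r := by
    have h1 := linearIndependent_iff_card_eq_finrank_span.1 hli
    rw [h1, Set.finrank, hsp, ← hr, A.rank_eq_finrank_span_row]
    rfl
  let e : Fin r ≃ κ := (Fintype.equivFinOfCardEq hcard).symm
  refine ⟨a ∘ e, ha.comp e.injective, ?_, ?_⟩
  · exact hli.comp e e.injective
  · intro i
    have h2 : Set.range (fun l => A ((a ∘ e) l)) = Set.range ((fun i => A i) ∘ a) := by
      have : (fun l => A ((a ∘ e) l)) = ((fun i => A i) ∘ a) ∘ e := rfl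
      rw [this, e.surjective.range_comp]
    rw [h2, hsp]
    exact Submodule.subset_span ⟨i, rfl⟩

theorem t_CUR : S_CUR := by
  intro K _ n R
  obtain ⟨I, hI, hIli, hIsp⟩ := rows R rfl
  set B : Matrix (Fin R.rank) (Fin n) K := R.submatrix I id with hB
  have hBr : B.rank = R.rank := by
    have h1 : LinearIndependent K B.row := hIli
    rw [h1.rank_matrix, Fintype.card_fin]
  have hBT : B.transpose.rank = R.rank := by rw [Matrix.rank_transpose, hBr]
  obtain ⟨J, hJ, hJli, -⟩ := rows B.transpose hBT
  set U : Matrix (Fin R.rank) (Fin R.rank) K := R.submatrix I J with hU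
  have hdet : U.det ≠ 0 := by
    have h1 : LinearIndependent K U.transpose.row := hJli
    have h2 := Matrix.linearIndependent_rows_iff_isUnit.1 h1
    rw [Matrix.isUnit_transpose] at h2
    exact ((Matrix.isUnit_iff_isUnit_det U).1 h2).ne_zero
  refine ⟨I, J, hI, hJ, hdet, ?_⟩
  intro i j
  obtain ⟨P, hP⟩ := (Submodule.mem_span_range_iff_exists_fun K).1 (hIsp i)
  have hP' : ∀ j, R i j = ∑ l, P l * R (I l) j := by
    intro j
    have := congrFun hP j
    rw [← this, Finset.sum_apply]
    rfl
  have hadj : ∀ l, ∑ k, R i (J k) * U.adjugate k l = U.det * P l := by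
    intro l
    have h1 : ∀ k, R i (J k) = ∑ l', P l' * U l' k := fun k => hP' (J k)
    have h2 : U * U.adjugate = U.det • (1 : Matrix _ _ K) := Matrix.mul_adjugate U
    calc ∑ k, R i (J k) * U.adjugate k l = ∑ k, ∑ l', P l' * (U l' k * U.adjugate k l) := by
          refine sum_congr rfl fun k _ => ?_
          rw [h1 k, sum_mul]
          exact sum_congr rfl fun l' _ => by ring
      _ = ∑ l', P l' * (U * U.adjugate) l' l := by
          rw [sum_comm]
          refine sum_congr rfl fun l' _ => ?_
          rw [← mul_sum, Matrix.mul_apply]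
      _ = U.det * P l := by
          rw [h2, sum_eq_single l]
          · simp [mul_comm]
          · intro l' _ hl'
            simp [Matrix.one_apply, hl']
          · intro h
            exact absurd (mem_univ l) h
  calc R i j * U.det = U.det * ∑ l, P l * R (I l) j := by rw [← hP' j]; ring
    _ = ∑ l, (∑ k, R i (J k) * U.adjugate k l) * R (I l) j := by
        rw [mul_sum]
        refine sum_congr rfl fun l _ => ?_
        rw [hadj l]
        ring
    _ = ∑ k, ∑ l, R i (J k) * U.adjugate k l * R (I l) j := by
        rw [sum_comm]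
        refine sum_congr rfl fun l _ => ?_
        rw [sum_mul]

end Pool.Agent.W428.RG
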